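import Pool.Agent.N818.DF.End3a
import Pool.Agent.N436.DF.All

/-!
# Project DF, part DH/31 (helper818): the end of the proof of the case `(1, 3)`
-/

namespace Pool.Agent.N818.DF

open Pool.Agent.N436.DF

theorem end3 (hb : S3_base) : S3_end := end3' low_h delr_h trReal_h caps_h hb

end Pool.Agent.N818.DF
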