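import Pool.Agent.N436.DF.Stm3

/-!
# Project DF, part DH/31 (helper818): the end of the proof of the case `(1, 3)`
-/

namespace Pool.Agent.N818.DF

open Finset Pool.Agent.N436.DF

lemma load_nn {V : Type} [DecidableEq V] {H : Hub V} (hr : ∀ u v, 0 ≤ H.r u v) {S : Finset V}
    {f : V → Bool} {p : V → V → ℤ} (h : ColBy H S f p) (u : V) : 0 ≤ load H S f p u := by
  unfold load
  refine Finset.sum_nonneg fun v _ => ?_
  split_ifs
  · exact hr u v
  · exact h.nn u v

lemma r_nn {V : Type} {P : Par} {H : Hub V} (h : Ok P H) (u v : V) : 0 ≤ H.r u v := by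
  rcases h.r01 u v with h | h <;> omega

/-- the potential after `low` -/
lemma rho_low (hl : S_low) {V : Type} [DecidableEq V] {H : Hub V} (h : Ok P13 H) (i : Bool)
    (x : V) (Y : Finset V) :
    rho P13 H Y - (if x ∈ Y then (if i = true then 10 else 6) else 0) ≤
      rho P13 (low H i x) Y := by
  have := (hl V P13 H i x h).2.1 Y
  refine le_trans (le_of_eq ?_) this
  cases i <;> simp [kap, P13]

/-- the potential after `delr` -/
lemma rho_delr (hd : S_delr) {V : Type} [DecidableEq V] {H : Hub V} (h : Ok P13 H)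
    (x y : V) (hr : H.r x y = 1) (Y : Finset V) :
    rho P13 (delr H x y) Y = rho P13 H Y + (if x ∈ Y ∧ y ∈ Y then 24 else 0) := by
  have := (hd V P13 H x y h hr).2.1 Y
  rw [this]
  simp [P13]

lemma eE_low {V : Type} [DecidableEq V] (H : Hub V) (i : Bool) (x : V) (S : Finset V) :
    eE (low H i x) S = eE H S := rfl

/-- (1) a vertex with a real neighbour in `S` has capacity 1 of colour 1 -/
lemma step1 (hl : S_low) (hd : S_delr) (ht : S_trReal) (hb : S3_base)
    {V : Type} [DecidableEq V] {H : Hub V} {S : Finset V} (mc : MinCex P13 H S)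
    (rb : RBge H S 10) {v w : V} (hv : v ∈ S) (hw : w ∈ S) (hr : H.r v w = 1) :
    H.c true v = 1 := by
  by_contra hc
  have ok := mc.ok
  have hc0 : H.c true v ≤ 0 := by
    have h1 : H.c true v ≤ 1 := ok.c1_le v
    omega
  obtain ⟨b1, -, -, -, -⟩ := hb V H ok
  -- the modified system
  have ok1 : Ok P13 (low H true v) := (hl V P13 H true v ok).1
  have ok2 : Ok P13 (low (low H true v) false v) := (hl V P13 _ false v ok1).1
  have ok3 : Ok P13 (low (low (low H true v) false v) false w) := (hl V P13 _ false w ok2).1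
  have hr3 : (low (low (low H true v) false v) false w).r v w = 1 := hr
  obtain ⟨ok4, -, -, lt4, -⟩ := hd V P13 _ v w ok3 hr3
  have hyp4 : Hyp P13 (delr (low (low (low H true v) false v) false w) v w) S := by
    intro Y hY hne
    have e1 := rho_low hl ok true v Y
    have e2 := rho_low hl ok1 false v Y
    have e3 := rho_low hl ok2 false w Y
    have e4 := rho_delr hd ok3 v w hr3 Y
    have e0 : -(2 * P13.b) < rho P13 H Y := mc.hyp Y hY hne
    have hP : P13.b = 3 := rfl
    have hB := b1 Y
    rw [hP] at e0 ⊢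
    by_cases hvY : v ∈ Y <;> by_cases hwY : w ∈ Y
    · simp only [hvY, hwY, and_self, if_true] at e1 e2 e3 e4
      norm_num at e1 e2 e3 e4
      omega
    · have := rb Y hY ⟨v, hvY, w, by simp [hw, hwY], hr⟩
      simp only [hvY, hwY, and_false, if_true, if_false] at e1 e2 e3 e4
      norm_num at e1 e2 e3 e4
      omega
    · have := rb Y hY ⟨w, hwY, v, by simp [hv, hvY], by rw [ok.rsymm]; exact hr⟩
      simp only [hvY, hwY, false_and, if_true, if_false] at e1 e2 e3 e4
      norm_num at e1 e2 e3 e4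
      omega
    · simp only [hvY, hwY, false_and, if_false] at e1 e2 e3 e4
      norm_num at e1 e2 e3 e4
      omega
  have lt : eE (delr (low (low (low H true v) false v) false w) v w) S < eE H S := by
    have := lt4 S hv hw
    simpa only [eE_low] using this
  obtain ⟨f, p, hcol⟩ := mc.ih1 _ S ok4 hyp4 lt
  have hfv : f v = false := by
    by_contra hf
    have hf : f v = true := by simpa using hf
    have h0 := load_nn (r_nn ok4) hcol v
    have h1 := hcol.cap v hv
    rw [hf] at h1
    have h2 : (delr (low (low (low H true v) false v) false w) v w).c true v ≤ -1 := by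
      simp only [delr, low]
      simp
      omega
    omega
  have h5 := ht V P13 (low H true v) S false v w f p ok1 hv hw hr hfv hcol
  have h6 := ((hl V P13 H true v ok).2.2.2.1 S f p h5).1
  exact mc.ncol ⟨f, p, h6⟩

/-- (2) no vertex has two real neighbours in `S` -/
lemma step2 (hl : S_low) (hd : S_delr) (ht : S_trReal) (hb : S3_base)
    {V : Type} [DecidableEq V] {H : Hub V} {S : Finset V} (mc : MinCex P13 H S)
    (rb : RBge H S 10) (rb2 : ∀ Y, Y ⊆ S → RB2 H S Y → 14 ≤ hp H Y) {v y₁ y₂ : V}
    (hv : v ∈ S) (h₁ : y₁ ∈ S) (h₂ : y₂ ∈ S) (hne : y₁ ≠ y₂)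
    (hr₁ : H.r v y₁ = 1) (hr₂ : H.r v y₂ = 1) : False := by
  have ok := mc.ok
  obtain ⟨b1, -, -, -, -⟩ := hb V H ok
  have hv1 : v ≠ y₁ := by
    rintro rfl
    rw [ok.r0] at hr₁
    omega
  have hv2 : v ≠ y₂ := by
    rintro rfl
    rw [ok.r0] at hr₂
    omega
  have ok1 : Ok P13 (low H true v) := (hl V P13 H true v ok).1
  have ok2 : Ok P13 (low (low H true v) true v) := (hl V P13 _ true v ok1).1
  set G := low (low H true v) true v with hG
  have hGr : G.r v y₁ = 1 := hr₁
  have ok3 : Ok P13 (low G false v) := (hl V P13 _ false v ok2).1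
  have ok4 : Ok P13 (low (low G false v) false y₁) := (hl V P13 _ false y₁ ok3).1
  have hr4 : (low (low G false v) false y₁).r v y₁ = 1 := hr₁
  obtain ⟨ok5, -, -, lt5, -⟩ := hd V P13 _ v y₁ ok4 hr4
  set G' := delr (low (low G false v) false y₁) v y₁ with hG'
  have hG'r : G'.r v y₂ = 1 := by
    simp only [hG', delr]
    rw [if_neg]
    · exact hr₂
    · rintro (⟨-, h⟩ | ⟨h, -⟩)
      · exact hne h.symm
      · exact hv1 h
  have ok6 : Ok P13 (low G' false v) := (hl V P13 _ false v ok5).1
  have ok7 : Ok P13 (low (low G' false v) false y₂) := (hl V P13 _ false y₂ ok6).1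
  have hr7 : (low (low G' false v) false y₂).r v y₂ = 1 := hG'r
  obtain ⟨ok8, -, le8, -, -⟩ := hd V P13 _ v y₂ ok7 hr7
  have hyp8 : Hyp P13 (delr (low (low G' false v) false y₂) v y₂) S := by
    intro Y hY hneY
    have e1 := rho_low hl ok true v Y
    have e2 := rho_low hl ok1 true v Y
    have e3 := rho_low hl ok2 false v Y
    have e4 := rho_low hl ok3 false y₁ Y
    have e5 := rho_delr hd ok4 v y₁ hr4 Y
    have e6 := rho_low hl ok5 false v Y
    have e7 := rho_low hl ok6 false y₂ Y
    have e8 := rho_delr hd ok7 v y₂ hr7 Y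
    rw [← hG] at e2
    rw [← hG'] at e5
    have e0 : -(2 * P13.b) < rho P13 H Y := mc.hyp Y hY hneY
    have hP : P13.b = 3 := rfl
    have hB := b1 Y
    rw [hP] at e0 ⊢
    by_cases hvY : v ∈ Y
    · by_cases h1Y : y₁ ∈ Y <;> by_cases h2Y : y₂ ∈ Y
      · simp only [hvY, h1Y, h2Y, and_self, if_true] at e1 e2 e3 e4 e5 e6 e7 e8
        norm_num at e1 e2 e3 e4 e5 e6 e7 e8
        omega
      · have := rb Y hY ⟨v, hvY, y₂, by simp [h₂, h2Y], hr₂⟩
        simp only [hvY, h1Y, h2Y, and_self, and_false, if_true, if_false] at e1 e2 e3 e4 e5 e6 e7 e8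
        norm_num at e1 e2 e3 e4 e5 e6 e7 e8
        omega
      · have := rb Y hY ⟨v, hvY, y₁, by simp [h₁, h1Y], hr₁⟩
        simp only [hvY, h1Y, h2Y, and_self, and_false, if_true, if_false] at e1 e2 e3 e4 e5 e6 e7 e8
        norm_num at e1 e2 e3 e4 e5 e6 e7 e8
        omega
      · have := rb2 Y hY ⟨v, hvY, y₁, by simp [h₁, h1Y], y₂, by simp [h₂, h2Y], hne, hr₁, hr₂⟩
        simp only [hvY, h1Y, h2Y, and_false, if_true, if_false] at e1 e2 e3 e4 e5 e6 e7 e8
        norm_num at e1 e2 e3 e4 e5 e6 e7 e8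
        omega
    · by_cases h1Y : y₁ ∈ Y
      · have := rb Y hY ⟨y₁, h1Y, v, by simp [hv, hvY], by rw [ok.rsymm]; exact hr₁⟩
        simp only [hvY, h1Y, false_and, if_true, if_false] at e1 e2 e3 e4 e5 e6 e7 e8
        have e7' : rho P13 (low G' false v) Y - 6 ≤ rho P13 (low (low G' false v) false y₂) Y := by
          refine le_trans ?_ e7
          split_ifs <;> norm_num at *
        norm_num at e1 e2 e3 e4 e5 e6 e8
        omega
      · by_cases h2Y : y₂ ∈ Y
        · have := rb Y hY ⟨y₂, h2Y, v, by simp [hv, hvY], by rw [ok.rsymm]; exact hr₂⟩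
          simp only [hvY, h1Y, h2Y, false_and, if_true, if_false] at e1 e2 e3 e4 e5 e6 e7 e8
          norm_num at e1 e2 e3 e4 e5 e6 e7 e8
          omega
        · simp only [hvY, h1Y, h2Y, false_and, if_false] at e1 e2 e3 e4 e5 e6 e7 e8
          norm_num at e1 e2 e3 e4 e5 e6 e7 e8
          omega
  have lt : eE (delr (low (low G' false v) false y₂) v y₂) S < eE H S := by
    have h1 := le8 S
    have h2 := lt5 S hv h₁
    rw [eE_low, eE_low] at h1 h2
    rw [hG, eE_low, eE_low] at h2
    exact lt_of_le_of_lt h1 h2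
  obtain ⟨f, p, hcol⟩ := mc.ih1 _ S ok8 hyp8 lt
  have hfv : f v = false := by
    by_contra hf
    have hf : f v = true := by simpa using hf
    have h0 := load_nn (r_nn ok8) hcol v
    have h1 := hcol.cap v hv
    rw [hf] at h1
    have hle : H.c true v ≤ 1 := ok.c1_le v
    have h2 : (delr (low (low G' false v) false y₂) v y₂).c true v ≤ -1 := by
      simp only [hG', hG, delr, low]
      simp
      omega
    omega
  have h5 := ht V P13 G' S false v y₂ f p ok5 hv h₂ hG'r hfv hcol
  have h6 := ht V P13 G S false v y₁ f p ok2 hv h₁ hGr hfv h5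
  have h7 := ((hl V P13 (low H true v) true v ok1).2.2.2.1 S f p h6).1
  have h8 := ((hl V P13 H true v ok).2.2.2.1 S f p h7).1
  exact mc.ncol ⟨f, p, h8⟩

theorem end3' (hl : S_low) (hd : S_delr) (ht : S_trReal) (hc : S_caps) (hb : S3_base) :
    S3_end := by
  intro V _ H S mc rb rb2
  have ok := mc.ok
  refine mc.ncol ⟨fun _ => true, fun u v => 0, ⟨fun _ _ => le_rfl, ?_, ?_⟩⟩
  · intro u _ v _ h
    exact absurd rfl h
  · intro v hv
    simp only [load, if_true]
    by_cases hex : ∃ w ∈ S, H.r v w = 1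
    · obtain ⟨w, hw, hr⟩ := hex
      rw [Finset.sum_eq_single w, hr, step1 hl hd ht hb mc rb hv hw hr]
      · intro u hu huw
        rcases ok.r01 v u with h | h
        · exact h
        · exact (step2 hl hd ht hb mc rb rb2 hv hu hw huw h hr).elim
      · intro h
        exact absurd hw h
    · push Not at hex
      rw [Finset.sum_eq_zero]
      · exact hc V P13 H S mc v hv true
      · intro u hu
        rcases ok.r01 v u with h | h
        · exact h
        · exact absurd h (hex u hu)

end Pool.Agent.N818.DF
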